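import Pool.Agent.H752.GM.Stubs
import Pool.Agent.H620R2.GaugeR.R4

/-!
# Task M12: sampling in `NP`
-/

namespace Pool.Agent.H752.GM

open Pool.Agent.NPC Pool.Agent.H620R2.Gauge Finset H568R2

namespace M12

theorem unpair_len (x w : List Bool) : x.length ≤ (pairBits w x).length := by
  unfold pairBits
  rw [List.length_append, List.length_cons]
  omega

/-- counting -/
theorem filter_range_length (N : ℕ) (q : ℕ → Bool) :
    ((List.range N).filter q).length = Nat.card {i : Fin N // q i = true} := by
  rw [Nat.card_eq_fintype_card, Fintype.card_subtype, Finset.card_filter,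
    Fin.sum_univ_eq_sum_range (fun i => if q i = true then 1 else 0) N]
  induction N with
  | zero => rfl
  | succ N ih =>
    rw [List.range_succ, List.filter_append, List.length_append, ih, Finset.sum_range_succ]
    congr 1
    cases h : q N <;> simp [h]

/-- finite changes of a language in `NP` -/
theorem isNP_patch {A : Oracle} {L L' : Set (List Bool)} (h : IsNP A L) (n₀ : ℕ)
    (hL : ∀ x : List Bool, n₀ ≤ x.length → (x ∈ L' ↔ x ∈ L)) : IsNP A L' := by
  classical
  obtain ⟨V, p, hV, hVL⟩ := h
  have hfin : ({x : List Bool | x.length < n₀ ∧ x ∈ L'}).Finite :=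
    (List.finite_length_lt Bool n₀).subset (fun x hx => hx.1)
  set T : List (List Bool) := hfin.toFinset.toList with hT
  have hTmem : ∀ x, x ∈ T ↔ x.length < n₀ ∧ x ∈ L' := by
    intro x
    simp [hT]
  have hψ : Poly (fun p : List Bool × List Bool × List Bool =>
      if (unpair p.1).2.length < n₀ then
        (if (unpair p.1).2 ∈ T then [true] else ([] : List Bool)) else p.2.1) := by
    have h1 : Poly (fun p : List Bool × List Bool × List Bool => (unpair p.1).2) :=
      Poly.snd (poly_unpair.comp (Poly.fst Poly.id))
    have h2 : Poly (fun p : List Bool × List Bool × List Bool =>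
        decide ((unpair p.1).2 ∈ T)) := by
      have h3 := Poly.decide_mem h1 (NPC.Poly.const (α := List Bool × List Bool × List Bool) T)
      exact h3.congr fun p => decide_eq_decide.2 Iff.rfl
    exact Poly.ite (Poly.decide_lt (Poly.length h1) (NPC.Poly.const n₀))
      (Poly.ite h2 (NPC.Poly.const _) (NPC.Poly.const _))
      (Poly.fst (Poly.snd Poly.id))
  have hW := IsFP.seq (A := A) (F := V) (G := V) hV hV (φ := fun p => p.2)
    (ψ := fun p : List Bool × List Bool × List Bool =>
      if (unpair p.1).2.length < n₀ then
        (if (unpair p.1).2 ∈ T then [true] else ([] : List Bool)) else p.2.1)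
    (Poly.snd Poly.id) hψ
  refine ⟨_, p, hW, fun x => ?_⟩
  change x ∈ L' ↔ ∃ w : List Bool, w.length ≤ p.eval x.length ∧
    (if (unpair (pairBits w x)).2.length < n₀ then
      (if (unpair (pairBits w x)).2 ∈ T then [true] else ([] : List Bool))
        else V (pairBits w x)) = [true]
  simp only [unpair_pairBits]
  by_cases h1 : x.length < n₀
  · simp only [if_pos h1]
    by_cases h2 : x ∈ T
    · simp only [if_pos h2]
      exact ⟨fun _ => ⟨[], by simp, trivial⟩, fun _ => ((hTmem x).1 h2).2⟩
    · simp only [if_neg h2]
      refine ⟨fun h3 => absurd ((hTmem x).2 ⟨h1, h3⟩) h2, fun h3 => ?_⟩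
      simp at h3
  · simp only [if_neg h1]
    rw [hL x (by omega), hVL x]

/-- the strings coded by the certificate -/
def dy (z : List Bool) : List (List Bool) := (unbits (List (List Bool)) (unpair z).1).getD []

theorem poly_dy : Poly dy := by
  have h : Poly (fun s : List Bool => (unbits (List (List Bool)) s).getD []) :=
    (Poly.optCases (o := unbits (List (List Bool))) (g := fun _ => ([] : List (List Bool)))
      (h := fun _ b => b) poly_unbits (NPC.Poly.const _) (Poly.snd Poly.id)).congr fun s => by
        cases unbits (List (List Bool)) s <;> rfl
  exact h.comp (Poly.fst poly_unpair)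

theorem dy_bits (ys : List (List Bool)) (x : List Bool) : dy (pairBits (bits ys) x) = ys := by
  unfold dy
  rw [unpair_pairBits, unbits_bits]
  rfl

end M12

open M12 in
/-- M12: sampling in `NP`. -/
theorem t_sampler : St_sampler := by
  intro A V p l u L n₀ hV hL
  set S : ℕ → List Bool → Set (List Bool) := fun i x => {y | y.length ≤ p.eval x.length ∧
    V (pairBits (smpl A (l.eval x.length) x.length (p.eval x.length) i) (pairBits y x)) = [true]}
    with hS
  set L₁ : Set (List Bool) := {x | u.eval x.length ≤
    Nat.card {i : Fin (2 * u.eval x.length) // ∃ y : List Bool, y.length ≤ p.eval x.length ∧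
      V (pairBits (smpl A (l.eval x.length) x.length (p.eval x.length) i) (pairBits y x)) =
        [true]}} with hL₁
  refine isNP_patch (L := L₁) ?_ n₀ (fun x hx => hL x hx)
  -- the polynomial time functions
  have hx1 : Poly (fun z : List Bool => (unpair z).2) := Poly.snd poly_unpair
  have hlen : UPoly (fun q : (ℕ × List Bool) × ℕ => (unpair q.1.2).2.length) :=
    UPoly.length (hx1.comp (Poly.snd (Poly.fst Poly.id)))
  have hQ : Poly (fun q : ℕ × List Bool => (List.range (p.eval (unpair q.2).2.length)).map
      (fun t => smp (l.eval (unpair q.2).2.length) (unpair q.2).2.length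
        (q.1 * p.eval (unpair q.2).2.length + t))) :=
    NPC.Poly.map (F := fun (q : ℕ × List Bool) (t : ℕ) =>
      smp (l.eval (unpair q.2).2.length) (unpair q.2).2.length
        (q.1 * p.eval (unpair q.2).2.length + t))
      (UPoly.range (UPoly.eval (UPoly.length (hx1.comp (Poly.snd Poly.id))) p))
      (r4_poly_smp (UPoly.eval hlen l) hlen
        (Poly.add (Poly.mul (Poly.fst (Poly.fst Poly.id)) (UPoly.toPoly (UPoly.eval hlen p)))
          (Poly.snd Poly.id)))
  have hW : Poly (fun q : (ℕ × List Bool) × List Bool =>
      pairBits q.2 (pairBits ((dy q.1.2).getD q.1.1 []) (unpair q.1.2).2)) :=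
    H622R2.poly_pairBits (Poly.snd Poly.id) (H622R2.poly_pairBits
      (Poly.getD (poly_dy.comp (Poly.snd (Poly.fst Poly.id))) (Poly.fst (Poly.fst Poly.id))
        (NPC.Poly.const [])) (hx1.comp (Poly.snd (Poly.fst Poly.id))))
  have hH : Poly (fun q : List Bool × List Bool =>
      [decide (u.eval (unpair q.1).2.length ≤ ((List.range (2 * u.eval (unpair q.1).2.length)).filter
        (fun i => q.2.getD i false && decide (((dy q.1).getD i []).length ≤
          p.eval (unpair q.1).2.length))).length)]) := by
    have h1 : UPoly (fun q : List Bool × List Bool => (unpair q.1).2.length) :=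
      UPoly.length (hx1.comp (Poly.fst Poly.id))
    have h2 : UPoly (fun q : List Bool × List Bool => u.eval (unpair q.1).2.length) :=
      UPoly.eval h1 u
    refine Poly.cons (Poly.decide_le (UPoly.toPoly h2) (Poly.length (Poly.filter
      (p := fun (q : List Bool × List Bool) (i : ℕ) => q.2.getD i false &&
        decide (((dy q.1).getD i []).length ≤ p.eval (unpair q.1).2.length))
      (UPoly.range (UPoly.mul (UPoly.const 2) h2)) ?_))) (NPC.Poly.const [])
    have h3 : UPoly (fun q : (List Bool × List Bool) × ℕ => (unpair q.1.1).2.length) :=
      UPoly.length (hx1.comp (Poly.fst (Poly.fst Poly.id)))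
    exact Poly.and (Poly.getD (Poly.snd (Poly.fst Poly.id)) (Poly.snd Poly.id)
      (NPC.Poly.const false)) (Poly.decide_le (Poly.length (Poly.getD
        (poly_dy.comp (Poly.fst (Poly.fst Poly.id))) (Poly.snd Poly.id) (NPC.Poly.const [])))
          (UPoly.toPoly (UPoly.eval h3 p)))
  have hF := IsFP.votes hV (2 * u) hQ hW hH
  refine ⟨_, 2 * u * (4 * p + 2) + 1, hF, fun x => ?_⟩
  -- the votes
  have hvote : ∀ (w : List Bool) (i : ℕ), i < 2 * u.eval x.length →
      ((List.range ((2 * u).eval (pairBits w x).length)).map (fun i =>
        decide (V (pairBits (((List.range (p.eval (unpair (pairBits w x)).2.length)).map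
      (fun t => smp (l.eval (unpair (pairBits w x)).2.length) (unpair (pairBits w x)).2.length
        (i * p.eval (unpair (pairBits w x)).2.length + t))).map A)
          (pairBits ((dy (pairBits w x)).getD i []) (unpair (pairBits w x)).2)) =
            [true]))).getD i false =
      decide (V (pairBits (smpl A (l.eval x.length) x.length (p.eval x.length) i)
        (pairBits ((dy (pairBits w x)).getD i []) x)) = [true]) := by
    intro w i hi
    have h1 : i < (2 * u).eval (pairBits w x).length := by
      have h2 : (2 * u).eval (pairBits w x).length = 2 * u.eval (pairBits w x).length := by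
        simp
      rw [h2]
      have := eval_mono u (unpair_len x w)
      omega
    rw [List.getD_eq_getElem _ _ (by rw [List.length_map, List.length_range]; exact h1),
      List.getElem_map, List.getElem_range]
    simp only [unpair_pairBits, List.map_map]
    rfl
  have hiff : ∀ w : List Bool, ((fun z : List Bool => [decide (u.eval (unpair z).2.length ≤
      ((List.range (2 * u.eval (unpair z).2.length)).filter
        (fun i => ((List.range ((2 * u).eval z.length)).map (fun i =>
          decide (V (pairBits (((List.range (p.eval (unpair z).2.length)).map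
      (fun t => smp (l.eval (unpair z).2.length) (unpair z).2.length
        (i * p.eval (unpair z).2.length + t))).map A)
          (pairBits ((dy z).getD i []) (unpair z).2)) =
            [true]))).getD i false && decide (((dy z).getD i []).length ≤
          p.eval (unpair z).2.length))).length)]) (pairBits w x) = [true]) ↔
      u.eval x.length ≤ Nat.card {i : Fin (2 * u.eval x.length) //
        (dy (pairBits w x)).getD i [] ∈ S i x} := by
    intro w
    simp only [unpair_pairBits (x := w) (w := x)]
    rw [List.cons.injEq, decide_eq_true_iff, filter_range_length]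
    have hcard : Nat.card {i : Fin (2 * u.eval x.length) // (((List.range ((2 * u).eval
        (pairBits w x).length)).map (fun i =>
          decide (V (pairBits (((List.range (p.eval x.length)).map
      (fun t => smp (l.eval x.length) x.length
        (i * p.eval x.length + t))).map A)
          (pairBits ((dy (pairBits w x)).getD i []) x)) =
            [true]))).getD i false && decide (((dy (pairBits w x)).getD i []).length ≤
          p.eval x.length)) = true} =
        Nat.card {i : Fin (2 * u.eval x.length) // (dy (pairBits w x)).getD i [] ∈ S i x} := by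
      apply Nat.card_congr
      apply Equiv.subtypeEquivRight
      intro i
      have h := hvote w i i.2
      simp only [unpair_pairBits (x := w) (w := x)] at h
      rw [h, Bool.and_eq_true, decide_eq_true_iff, decide_eq_true_iff, hS]
      exact and_comm
    rw [hcard]
    simp
  constructor
  · intro hx
    classical
    -- the certificate
    set g : ℕ → List Bool := fun i => if h : ∃ y, y ∈ S i x then h.choose else [] with hg
    have hg1 : ∀ i, (∃ y, y ∈ S i x) → g i ∈ S i x := by
      intro i h
      rw [hg]
      simp only [dif_pos h]
      exact h.choose_spec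
    have hg2 : ∀ i, (g i).length ≤ p.eval x.length := by
      intro i
      by_cases h : ∃ y, y ∈ S i x
      · exact (hg1 i h).1
      · rw [hg]
        simp only [dif_neg h]
        simp
    refine ⟨bits ((List.range (2 * u.eval x.length)).map g), ?_, ?_⟩
    · rw [bits_length]
      have h1 := sz_le_length_mul ((List.range (2 * u.eval x.length)).map g)
        (4 * p.eval x.length + 1) (by
          intro a ha
          rw [List.mem_map] at ha
          obtain ⟨i, _, rfl⟩ := ha
          have := sz_listBool_le (g i)
          have := hg2 i
          omega)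
      rw [List.length_map, List.length_range] at h1
      refine h1.trans (le_of_eq ?_)
      simp
    · refine (hiff _).mpr ?_
      have hx' : u.eval x.length ≤ Nat.card {i : Fin (2 * u.eval x.length) //
        ∃ y : List Bool, y ∈ S i x} := hx
      refine hx'.trans (Nat.card_le_card_of_injective
        (fun i : {i : Fin (2 * u.eval x.length) // ∃ y : List Bool, y ∈ S i x} =>
          (⟨i.1, ?_⟩ : {i : Fin (2 * u.eval x.length) //
            (dy (pairBits (bits ((List.range (2 * u.eval x.length)).map g)) x)).getD i [] ∈
              S i x})) ?_)
      · rw [dy_bits, List.getD_eq_getElem _ _ (by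
          rw [List.length_map, List.length_range]; exact i.1.2), List.getElem_map,
          List.getElem_range]
        exact hg1 _ i.2
      · intro i j hij
        simp only [Subtype.mk.injEq] at hij
        exact Subtype.ext hij
  · rintro ⟨w, _, hw⟩
    have hw' := (hiff w).mp hw
    change u.eval x.length ≤ Nat.card {i : Fin (2 * u.eval x.length) //
        ∃ y : List Bool, y ∈ S i x}
    refine hw'.trans (Nat.card_le_card_of_injective
        (fun i : {i : Fin (2 * u.eval x.length) // (dy (pairBits w x)).getD i [] ∈ S i x} =>
          (⟨i.1, ⟨_, i.2⟩⟩ : {i : Fin (2 * u.eval x.length) //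
            ∃ y : List Bool, y ∈ S i x})) ?_)
    intro i j hij
    simp only [Subtype.mk.injEq] at hij
    exact Subtype.ext hij

end Pool.Agent.H752.GM

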